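import Pool.Agent.Y7.LN.Stm
import Pool.Agent.Y255.EJ.Cha

/-!
Project LN, step CHB: a solution of the truncated perturbed system of the main modes is a chain.
Adapted from `Pool/Agent/Y255/EJ/Cha.lean` (helper255, helper6).
-/

open Set Filter Topology MeasureTheory

set_option autoImplicit false

namespace Pool.Agent.Y71.LN

open Pool.Agent.Y5 (Y)
open Pool.Agent.Y5.D (vf3)
open Pool.Agent.Y6.N (src ph)
open Pool.Agent.Y303.EJ
open Pool.Agent.Y255.EJ
open Pool.Agent.Y255.EJ.Gd (Fl Fl_src xvf)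
open Pool.Agent.Y7.LN

/-- Assumptions. -/
structure Ge (η : ℝ) (lm L C ℓ : ℕ → ℝ) (B : ℕ → ℕ → ℝ) (N : ℕ) (T : ℝ) (x f : ℕ → ℝ → ℝ) :
    Prop where
  sq : SeqE η lm L C ℓ B
  nm : Num η lm L C ℓ
  der : ∀ n, n ≤ N → ∀ t ∈ Ico 0 T, HasDerivWithinAt (x n)
      (vf3 L C ℓ B (fun m => x m t) n + f n t) (Ico 0 T) t
  zr : ∀ n, N < n → ∀ t ∈ Ico 0 T, x n t = 0
  en : ∀ t ∈ Ico 0 T, ∑' n, x n t ^ 2 ≤ 1
  hf : ∀ n, n ≤ N → ∀ t ∈ Ico 0 T, |f n t| ≤ ph lm 0 * |x n t| + ph lm n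

namespace Ge

variable {η : ℝ} {lm L C ℓ : ℕ → ℝ} {B : ℕ → ℕ → ℝ} {N : ℕ} {T : ℝ} {x f : ℕ → ℝ → ℝ}

lemma cont (g : Ge η lm L C ℓ B N T x f) (n : ℕ) : ContinuousOn (x n) (Ico 0 T) := by
  rcases le_or_gt n N with h | h
  · exact fun t ht => (g.der n h t ht).continuousWithinAt
  · exact continuousOn_const.congr (fun t ht => g.zr n h t ht)

lemma derivAt (g : Ge η lm L C ℓ B N T x f) {n : ℕ} (hn : n ≤ N) {t : ℝ} (ht : t ∈ Ioo 0 T) :
    HasDerivAt (x n) (vf3 L C ℓ B (fun m => x m t) n + f n t) t :=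
  (g.der n hn t ⟨ht.1.le, ht.2⟩).hasDerivAt (Ico_mem_nhds ht.1 ht.2)

lemma Y_fin (g : Ge η lm L C ℓ B N T x f) {t : ℝ} (ht : t ∈ Ico 0 T) (m : ℕ) :
    HasSum (fun j : ℕ => x (m + j) t ^ 2)
      (∑ j ∈ Finset.range (N + 1 - m), x (m + j) t ^ 2) := by
  apply hasSum_sum_of_ne_finset_zero
  intro j hj
  rw [Finset.mem_range, not_lt] at hj
  rw [g.zr (m + j) (by omega) t ht]
  norm_num

lemma summ (g : Ge η lm L C ℓ B N T x f) {t : ℝ} (ht : t ∈ Ico 0 T) (m : ℕ) :
    Summable fun j : ℕ => x (m + j) t ^ 2 := (g.Y_fin ht m).summable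

lemma Y_sum (g : Ge η lm L C ℓ B N T x f) {t : ℝ} (ht : t ∈ Ico 0 T) (m : ℕ) :
    Y x m t = ∑ j ∈ Finset.range (N + 1 - m), x (m + j) t ^ 2 := (g.Y_fin ht m).tsum_eq

lemma Y_nonneg (m : ℕ) (t : ℝ) : 0 ≤ Y x m t := tsum_nonneg fun _ => sq_nonneg _

lemma Y_succ (g : Ge η lm L C ℓ B N T x f) {t : ℝ} (ht : t ∈ Ico 0 T) (m : ℕ) :
    Y x m t = x m t ^ 2 + Y x (m + 1) t := by
  rw [Y, (g.summ ht m).tsum_eq_zero_add]
  congr 1
  rw [Y]
  congr 1; ext j; congr 2; ring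

lemma sq_le (g : Ge η lm L C ℓ B N T x f) {t : ℝ} (ht : t ∈ Ico 0 T) {m n : ℕ} (h : m ≤ n) :
    x n t ^ 2 ≤ Y x m t := by
  obtain ⟨k, rfl⟩ := Nat.exists_eq_add_of_le h
  exact (g.summ ht m).le_tsum k fun j _ => sq_nonneg _

lemma Y_anti (g : Ge η lm L C ℓ B N T x f) {t : ℝ} (ht : t ∈ Ico 0 T) (m : ℕ) :
    Y x (m + 1) t ≤ Y x m t := by
  rw [g.Y_succ ht m]; nlinarith [sq_nonneg (x m t)]

lemma Y_le_one (g : Ge η lm L C ℓ B N T x f) {t : ℝ} (ht : t ∈ Ico 0 T) (m : ℕ) :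
    Y x m t ≤ 1 := by
  induction m with
  | zero => simpa [Y] using g.en t ht
  | succ m ih => exact (g.Y_anti ht m).trans ih

lemma abs_le_sqrt (g : Ge η lm L C ℓ B N T x f) {t : ℝ} (ht : t ∈ Ico 0 T) {m n : ℕ}
    (h : m ≤ n) : |x n t| ≤ √(Y x m t) := Real.abs_le_sqrt (g.sq_le ht h)

lemma abs_le_one (g : Ge η lm L C ℓ B N T x f) {t : ℝ} (ht : t ∈ Ico 0 T) (n : ℕ) :
    |x n t| ≤ 1 := by
  refine (g.abs_le_sqrt ht (le_refl n)).trans ?_
  exact Real.sqrt_le_one.2 (g.Y_le_one ht n)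

/-- weighted tails -/
lemma tsB (g : Ge η lm L C ℓ B N T x f) {t : ℝ} (ht : t ∈ Ico 0 T) {i m : ℕ} (him : i < m) :
    Summable (fun j : ℕ => B i (m + j) * x (m + j) t ^ 2) := by
  have hS := g.summ ht m
  have hlo : ∀ j, 999 / 1000 ≤ B i (m + j) := fun j => sBlo g.sq g.nm (by omega)
  have hhi : ∀ j, B i (m + j) ≤ 1001 / 1000 := fun j => sBhi g.sq g.nm (by omega)
  refine Summable.of_norm_bounded (hS.mul_left (1001 / 1000)) fun j => ?_
  rw [Real.norm_eq_abs, abs_mul, abs_of_nonneg (sq_nonneg (x (m + j) t)),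
    abs_of_nonneg (by linarith [hlo j])]
  have := hhi j
  gcongr

/-- the error of the weighted tails -/
lemma tsE (g : Ge η lm L C ℓ B N T x f) {t : ℝ} (ht : t ∈ Ico 0 T) {i m : ℕ} (him : i < m) :
    |∑' j : ℕ, B i (m + j) * x (m + j) t ^ 2 - Y x m t| ≤ Real.exp (-(lm m)) * Y x m t := by
  have hS := g.summ ht m
  have h1 := g.tsB ht him
  have hb : ∀ j, |B i (m + j) * x (m + j) t ^ 2 - x (m + j) t ^ 2| ≤
      Real.exp (-(lm m)) * x (m + j) t ^ 2 := by
    intro j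
    have e : B i (m + j) * x (m + j) t ^ 2 - x (m + j) t ^ 2 =
        (B i (m + j) - 1) * x (m + j) t ^ 2 := by ring
    rw [e, abs_mul, abs_of_nonneg (sq_nonneg (x (m + j) t))]
    have h2 := g.sq.B_err i (m + j) (by omega)
    have h3 : Real.exp (-(lm (m + j))) ≤ Real.exp (-(lm m)) := by
      apply Real.exp_le_exp.2
      have := slmmono g.sq g.nm (Nat.le_add_right m j)
      linarith
    gcongr
    exact h2.trans h3
  rw [Y, ← h1.tsum_sub hS, ← tsum_mul_left]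
  have h4 : Summable fun j => B i (m + j) * x (m + j) t ^ 2 - x (m + j) t ^ 2 := h1.sub hS
  have h5 := hS.mul_left (Real.exp (-(lm m)))
  rw [abs_le]
  constructor
  · rw [← tsum_neg]
    exact h5.neg.tsum_le_tsum (fun j => (abs_le.1 (hb j)).1) h4
  · exact h4.tsum_le_tsum (fun j => (abs_le.1 (hb j)).2) h5

/-- strain sum -/
lemma strain (g : Ge η lm L C ℓ B N T x f) {t : ℝ} (ht : t ∈ Ico 0 T) {m k : ℕ} (hmk : m ≤ k) :
    |∑ i ∈ Finset.range m, L i * B i k * x i t - Sg L x m t| ≤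
      (∑ i ∈ Finset.range m, L i) * Real.exp (-(lm k)) := by
  rw [Sg, ← Finset.sum_sub_distrib, Finset.sum_mul]
  refine (Finset.abs_sum_le_sum_abs _ _).trans ?_
  refine Finset.sum_le_sum fun i hi => ?_
  have hi' : i < k := by have := Finset.mem_range.1 hi; omega
  have hLp := sLp g.nm i
  have e : L i * B i k * x i t - L i * x i t = L i * ((B i k - 1) * x i t) := by ring
  rw [e, abs_mul, abs_mul, abs_of_pos hLp]
  have h1 := g.sq.B_err i k hi'
  have h2 := g.abs_le_one ht i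
  have h3 := Real.exp_pos (-(lm k))
  calc L i * (|B i k - 1| * |x i t|) ≤ L i * (Real.exp (-(lm k)) * 1) := by gcongr
    _ = _ := by ring

/-- finite sums -/
lemma part (g : Ge η lm L C ℓ B N T x f) {t : ℝ} (ht : t ∈ Ico 0 T) (m k : ℕ) :
    ∑ j ∈ Finset.range k, x (m + j) t * vf3 L C ℓ B (fun i => x i t) (m + j) =
      -(∑ j ∈ Finset.range k, ℓ (m + j) * x (m + j) t ^ 2)
      + Fl L C (fun i => x i t) m - Fl L C (fun i => x i t) (m + k)
      + ∑ j ∈ Finset.range k, x (m + j) t ^ 2 * ∑ i ∈ Finset.range m, L i * B i (m + j) * x i t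
      - ∑ i ∈ Finset.range k, L (m + i) * x (m + i) t *
          ∑' l : ℕ, B (m + i) (m + k + l) * x (m + k + l) t ^ 2 := by
  induction k with
  | zero => simp
  | succ k ih =>
    rw [Finset.sum_range_succ, ih, Finset.sum_range_succ, Finset.sum_range_succ (fun j =>
      x (m + j) t ^ 2 * ∑ i ∈ Finset.range m, L i * B i (m + j) * x i t)]
    set M := m + k with hM
    have e1 : m + (k + 1) = M + 1 := by omega
    rw [e1]
    have h2 : ∀ i ∈ Finset.range k, L (m + i) * x (m + i) t *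
          ∑' l : ℕ, B (m + i) (M + l) * x (M + l) t ^ 2
        = L (m + i) * B (m + i) M * x (m + i) t * x M t ^ 2 + L (m + i) * x (m + i) t *
          ∑' l : ℕ, B (m + i) (M + 1 + l) * x (M + 1 + l) t ^ 2 := by
      intro i hi
      have hi' := Finset.mem_range.1 hi
      rw [(g.tsB ht (i := m + i) (m := M) (by omega)).tsum_eq_zero_add]
      have e : ∑' l : ℕ, B (m + i) (M + (l + 1)) * x (M + (l + 1)) t ^ 2
          = ∑' l : ℕ, B (m + i) (M + 1 + l) * x (M + 1 + l) t ^ 2 := by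
        refine tsum_congr fun l => ?_
        have : M + (l + 1) = M + 1 + l := by omega
        rw [this]
      rw [e, add_zero]
      ring
    rw [Finset.sum_congr rfl h2, Finset.sum_add_distrib]
    rw [Finset.sum_range_succ (fun i => L (m + i) * x (m + i) t *
          ∑' l : ℕ, B (m + i) (M + 1 + l) * x (M + 1 + l) t ^ 2)]
    have h3 : ∑ i ∈ Finset.range M, L i * B i M * x i t
        = ∑ i ∈ Finset.range m, L i * B i M * x i t
          + ∑ i ∈ Finset.range k, L (m + i) * B (m + i) M * x (m + i) t := by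
      rw [hM, Finset.sum_range_add]
    have h4 := xvf (L := L) (C := C) (ℓ := ℓ) (B := B) (x := x) t M
    rw [← hM, h4, h3, ← Finset.sum_mul]
    ring

/-- derivative of the tail energy -/
lemma Yder (g : Ge η lm L C ℓ B N T x f) (m : ℕ) {t : ℝ} (ht : t ∈ Ico 0 T) :
    ∃ D, HasDerivWithinAt (Y x m) D (Ico 0 T) t ∧
      |D - 2 * (Sg L x m t * Y x m t + src L C x m t * x m t -
        ∑ i ∈ Finset.Ico m (N + 1), ℓ i * x i t ^ 2)| ≤
        2 * e0 lm * Y x m t + 4 * ph lm m * √(Y x m t) := by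
  have q := g.nm
  set k := N + 1 - m with hk
  set F : ℕ → ℝ := fun j => x (m + j) t * (vf3 L C ℓ B (fun i => x i t) (m + j)
    + f (m + j) t) with hF
  have hle : ∀ j ∈ Finset.range k, m + j ≤ N := by
    intro j hj
    have := Finset.mem_range.1 hj
    omega
  have hd : HasDerivWithinAt (Y x m) (∑ j ∈ Finset.range k, 2 * F j) (Ico 0 T) t := by
    have h1 : HasDerivWithinAt (fun τ => ∑ j ∈ Finset.range k, x (m + j) τ ^ 2)
        (∑ j ∈ Finset.range k, 2 * F j) (Ico 0 T) t := by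
      refine HasDerivWithinAt.fun_sum fun j hj => ?_
      have := (g.der (m + j) (hle j hj) t ht).fun_pow 2
      refine this.congr_deriv ?_
      simp only [hF]; ring
    exact h1.congr (fun τ hτ => g.Y_sum hτ m) (g.Y_sum ht m)
  refine ⟨_, hd, ?_⟩
  have hY0 := Y_nonneg (x := x) m t
  have hYs := g.Y_sum ht m
  rw [← hk] at hYs
  set W := √(Y x m t) with hW
  have hW0 : 0 ≤ W := Real.sqrt_nonneg _
  have hxW : ∀ j, |x (m + j) t| ≤ W := fun j => g.abs_le_sqrt ht (by omega)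
  -- the perturbation
  have hfb : ∀ j ∈ Finset.range k,
      |x (m + j) t * f (m + j) t| ≤ ph lm 0 * x (m + j) t ^ 2 + W * ph lm (m + j) := by
    intro j hj
    rw [abs_mul]
    have h1 := g.hf (m + j) (hle j hj) t ht
    have h2 := ph_pos lm (m + j)
    calc |x (m + j) t| * |f (m + j) t|
        ≤ |x (m + j) t| * (ph lm 0 * |x (m + j) t| + ph lm (m + j)) := by gcongr
      _ = ph lm 0 * |x (m + j) t| ^ 2 + |x (m + j) t| * ph lm (m + j) := by ring
      _ ≤ _ := by rw [sq_abs]; gcongr; exact hxW j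
  have hf1 : |∑ j ∈ Finset.range k, x (m + j) t * f (m + j) t| ≤
      ph lm 0 * Y x m t + W * (2 * ph lm m) := by
    refine (Finset.abs_sum_le_sum_abs _ _).trans ?_
    refine (Finset.sum_le_sum hfb).trans ?_
    rw [Finset.sum_add_distrib, ← Finset.mul_sum, ← Finset.mul_sum, ← hYs]
    have h1 := phsum g.sq q m
    have h2 := h1.1.sum_le_tsum (Finset.range k) (fun j _ => (ph_pos lm (m + j)).le)
    have h3 := h2.trans h1.2
    gcongr
  -- the main part
  set V : ℕ → ℝ := fun j => x (m + j) t * vf3 L C ℓ B (fun i => x i t) (m + j) with hV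
  have hsplit : ∑ j ∈ Finset.range k, 2 * F j = 2 * (∑ j ∈ Finset.range k, V j
      + ∑ j ∈ Finset.range k, x (m + j) t * f (m + j) t) := by
    rw [← Finset.sum_add_distrib, Finset.mul_sum]
    refine Finset.sum_congr rfl fun j _ => ?_
    simp only [hV, hF]; ring
  have hSt : ∀ j ∈ Finset.range k,
      |x (m + j) t ^ 2 * ∑ i ∈ Finset.range m, L i * B i (m + j) * x i t -
      Sg L x m t * x (m + j) t ^ 2| ≤
        (∑ i ∈ Finset.range m, L i) * Real.exp (-(lm m)) * x (m + j) t ^ 2 := by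
    intro j _
    have e : x (m + j) t ^ 2 * ∑ i ∈ Finset.range m, L i * B i (m + j) * x i t -
      Sg L x m t * x (m + j) t ^ 2 = (∑ i ∈ Finset.range m, L i * B i (m + j) * x i t -
        Sg L x m t) * x (m + j) t ^ 2 := by ring
    rw [e, abs_mul, abs_of_nonneg (sq_nonneg (x (m + j) t))]
    have h1 := g.strain ht (Nat.le_add_right m j)
    have hL0 : 0 ≤ ∑ i ∈ Finset.range m, L i := Finset.sum_nonneg fun i _ => (sLp q i).le
    have h5 : Real.exp (-(lm (m + j))) ≤ Real.exp (-(lm m)) := by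
      apply Real.exp_le_exp.2
      have := slmmono g.sq g.nm (Nat.le_add_right m j)
      linarith
    gcongr
    refine h1.trans ?_
    gcongr
  have hV1 : ∑ j ∈ Finset.range k, V j = -(∑ i ∈ Finset.Ico m (N + 1), ℓ i * x i t ^ 2)
      + src L C x m t * x m t +
      ∑ j ∈ Finset.range k, x (m + j) t ^ 2 * ∑ i ∈ Finset.range m, L i * B i (m + j) * x i t := by
    have h1 := g.part ht m k
    have h2 : ∑ i ∈ Finset.Ico m (N + 1), ℓ i * x i t ^ 2 =
        ∑ j ∈ Finset.range k, ℓ (m + j) * x (m + j) t ^ 2 := by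
      rw [Finset.sum_Ico_eq_sum_range]
    have h3 : ∑ i ∈ Finset.range k, L (m + i) * x (m + i) t *
          ∑' l : ℕ, B (m + i) (m + k + l) * x (m + k + l) t ^ 2 = 0 := by
      refine Finset.sum_eq_zero fun i _ => ?_
      have h4 : ∀ l : ℕ, B (m + i) (m + k + l) * x (m + k + l) t ^ 2 = 0 := by
        intro l
        rw [g.zr (m + k + l) (by omega) t ht]
        ring
      simp only [h4, tsum_zero, mul_zero]
    have h4 : Fl L C (fun i => x i t) (m + k) = 0 := by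
      unfold Fl
      split_ifs with h0
      · rfl
      · have h5 := g.zr (m + k) (by omega) t ht
        simp only [h5, mul_zero]
    rw [h1, h3, h4, h2, Fl_src]
    ring
  have hSY : |∑ j ∈ Finset.range k, x (m + j) t ^ 2 *
      ∑ i ∈ Finset.range m, L i * B i (m + j) * x i t -
      Sg L x m t * Y x m t| ≤ (∑ i ∈ Finset.range m, L i) * Real.exp (-(lm m)) * Y x m t := by
    rw [hYs, Finset.mul_sum, Finset.mul_sum, ← Finset.sum_sub_distrib]
    exact (Finset.abs_sum_le_sum_abs _ _).trans (Finset.sum_le_sum hSt)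
  rw [hsplit, hV1]
  have hr := rate g.sq q m
  have hrY : ((∑ i ∈ Finset.range m, L i) * Real.exp (-(lm m)) + ph lm 0) * Y x m t ≤
      e0 lm * Y x m t := by gcongr
  rw [abs_le] at hSY hf1 ⊢
  constructor <;> nlinarith [hSY.1, hSY.2, hf1.1, hf1.2]

lemma Ycont (g : Ge η lm L C ℓ B N T x f) (m : ℕ) : ContinuousOn (Y x m) (Ico 0 T) :=
  fun _ ht => (g.Yder m ht).choose_spec.1.continuousWithinAt

/-- the equation of one mode -/
lemma xder (g : Ge η lm L C ℓ B N T x f) {n : ℕ} (hn : n ≤ N) {t : ℝ} (ht : t ∈ Ioo 0 T) :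
    ∃ v, HasDerivAt (x n) v t ∧
    |v - (Sg L x n t * x n t + src L C x n t - ℓ n * x n t - L n * √(Y x (n + 1) t) ^ 2)| ≤
      e0 lm * |x n t| + C n * L n * |x n t| * √(Y x (n + 1) t)
        + Real.exp (-(lm (n + 1) / 2)) * √(Y x (n + 1) t) ^ 2 + ph lm n := by
  have ht' : t ∈ Ico 0 T := ⟨ht.1.le, ht.2⟩
  refine ⟨_, g.derivAt hn ht, ?_⟩
  rw [Real.sq_sqrt (Y_nonneg (n + 1) t)]
  have q := g.nm
  have hLp := sLp q n
  have hC := q.C0 n
  have hY0 := Y_nonneg (x := x) (n + 1) t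
  have hW0 := Real.sqrt_nonneg (Y x (n + 1) t)
  have h1 := g.strain ht' (le_refl n)
  have h2 := g.tsE ht' (Nat.lt_succ_self n)
  have h3 := g.abs_le_sqrt ht' (le_refl (n + 1))
  have h4 := g.hf n hn t ht'
  have h5 := rate g.sq q n
  have h6 := (Lexp g.sq q n).1
  have hx0 := abs_nonneg (x n t)
  have e : vf3 L C ℓ B (fun m => x m t) n + f n t -
      (Sg L x n t * x n t + src L C x n t - ℓ n * x n t - L n * Y x (n + 1) t) =
      (∑ i ∈ Finset.range n, L i * B i n * x i t - Sg L x n t) * x n t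
        - L n * C n * x n t * x (n + 1) t
        - L n * (∑' m : ℕ, B n (n + 1 + m) * x (n + 1 + m) t ^ 2 - Y x (n + 1) t) + f n t := by
    unfold vf3 src
    split_ifs <;> ring
  rw [e]
  have b1 : |(∑ i ∈ Finset.range n, L i * B i n * x i t - Sg L x n t) * x n t| ≤
      (∑ i ∈ Finset.range n, L i) * Real.exp (-(lm n)) * |x n t| := by
    rw [abs_mul]
    gcongr
  have b2 : |L n * C n * x n t * x (n + 1) t| ≤ C n * L n * |x n t| * √(Y x (n + 1) t) := by
    rw [abs_mul, abs_mul, abs_mul, abs_of_pos hLp, abs_of_pos hC, mul_comm (L n)]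
    gcongr
  have b3 : |L n * (∑' m : ℕ, B n (n + 1 + m) * x (n + 1 + m) t ^ 2 - Y x (n + 1) t)| ≤
      Real.exp (-(lm (n + 1) / 2)) * Y x (n + 1) t := by
    rw [abs_mul, abs_of_pos hLp]
    have h7 := Real.exp_pos (-(lm (n + 1) / 2))
    calc L n * |∑' m : ℕ, B n (n + 1 + m) * x (n + 1 + m) t ^ 2 - Y x (n + 1) t|
        ≤ L n * (Real.exp (-(lm (n + 1))) * Y x (n + 1) t) := by gcongr
      _ = (L n * Real.exp (-(lm (n + 1)))) * Y x (n + 1) t := by ring
      _ ≤ Real.exp (-(lm (n + 1) / 2)) * Y x (n + 1) t := by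
          gcongr
          linarith
  have b5 : ((∑ i ∈ Finset.range n, L i) * Real.exp (-(lm n)) + ph lm 0) * |x n t| ≤
      e0 lm * |x n t| := by gcongr
  rw [abs_le] at b1 b2 b3 h4 ⊢
  constructor <;> linarith [b1.1, b1.2, b2.1, b2.2, b3.1, b3.2, h4.1, h4.2]

end Ge

/-- Task CHB. -/
theorem t_CHB : S_CHB := by
  intro η lm L C ℓ B N T x f hsq hnm hwn hT hT1 hder hzr hen hf
  have g : Ge η lm L C ℓ B N T x f := ⟨hsq, hnm, hder, hzr, hen, hf⟩
  have hsqrt : ∀ n, (fun s => √(Y x n s) ^ 2) = Y x n := by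
    intro n
    ext s
    exact Real.sq_sqrt (Ge.Y_nonneg n s)
  refine
    { sq := hsq
      nm := hnm
      wn := hwn
      hT := hT
      hT1 := hT1
      cx := fun n => g.cont n
      cR := fun n => (g.Ycont n).sqrt
      R0 := fun n t _ => Real.sqrt_nonneg _
      R1 := fun t ht => Real.sqrt_le_one.2 (g.Y_le_one ht 0)
      Rsq := ?_
      zero := ?_
      dR := ?_
      dx := fun n hn t ht => g.xder hn ht }
  · intro n t ht
    rw [Real.sq_sqrt (Ge.Y_nonneg n t), Real.sq_sqrt (Ge.Y_nonneg (n + 1) t)]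
    exact g.Y_succ ht n
  · intro n hn t ht
    refine ⟨hzr n hn t ht, ?_⟩
    have h1 : Y x n t = 0 := by
      rw [g.Y_sum ht n]
      have h2 : N + 1 - n = 0 := by omega
      rw [h2, Finset.sum_range_zero]
    rw [h1, Real.sqrt_zero]
  · intro n t ht
    obtain ⟨D, hD, hb⟩ := g.Yder n (⟨ht.1.le, ht.2⟩ : t ∈ Ico 0 T)
    refine ⟨D, ?_, ?_⟩
    · rw [hsqrt n]
      exact hD.hasDerivAt (Ico_mem_nhds ht.1 ht.2)
    · rw [Real.sq_sqrt (Ge.Y_nonneg n t)]
      exact hb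

end Pool.Agent.Y71.LN
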